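import Mathlib

open CategoryTheory

namespace Pool.Agent.Results.MP_0548d2_gt.Cex

variable {k C : Type} [Field k] [PartialOrder C]

/-- Multi-flags. -/
def IsFlag {V : Type} [AddCommGroup V] [Module k V] (S : Set (Submodule k V)) : Prop :=
  ⊥ ∈ S ∧ ⊤ ∈ S ∧ ∀ a ∈ S, ∀ b ∈ S, a ⊓ b ∈ S

/-- The multi-flag generated by `T`. -/
def gen {V : Type} [AddCommGroup V] [Module k V] (T : Set (Submodule k V)) : Set (Submodule k V) :=
  ⋂₀ {S | T ⊆ S ∧ IsFlag S}

/-- `𝓕₀(M)`. -/
def base (M : C ⥤ ModuleCat k) (x : C) : Set (Submodule k (M.obj x)) :=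
  gen ({W | ∃ (y : C) (h : x ≤ y), W = LinearMap.ker (M.map h.hom).hom} ∪
    {W | ∃ (z : C) (h : z ≤ x), W = LinearMap.range (M.map h.hom).hom})

/-- The recursion started from `G`. -/
def iter (M : C ⥤ ModuleCat k) (G : ∀ x, Set (Submodule k (M.obj x))) :
    ℕ → ∀ x, Set (Submodule k (M.obj x))
  | 0 => G
  | n + 1 => fun x =>
    gen ({W | ∃ (y : C) (h : x ≤ y), ∃ U ∈ iter M G n y, W = U.comap (M.map h.hom).hom} ∪
      {W | ∃ (z : C) (h : z ≤ x), ∃ U ∈ iter M G n z, W = U.map (M.map h.hom).hom})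

def Stable (M : C ⥤ ModuleCat k) : Prop :=
  ∀ x, ∃ N, ∀ n ≥ N, iter M (base M) n x = iter M (base M) (n + 1) x

def StronglyStable (M : C ⥤ ModuleCat k) : Prop :=
  ∀ F : ∀ x, Set (Submodule k (M.obj x)), (∀ x, (F x).Finite ∧ IsFlag (F x)) →
    ∃ N, ∀ x, ⋃ n, iter M (fun y => gen (base M y ∪ F y)) n x =
      iter M (fun y => gen (base M y ∪ F y)) N x

section
variable {V : Type} [AddCommGroup V] [Module k V]
lemma gen_le {T S : Set (Submodule k V)} (h : T ⊆ S) (hS : IsFlag S) : gen T ⊆ S :=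
  Set.sInter_subset_of_mem ⟨h, hS⟩
lemma le_gen (T : Set (Submodule k V)) : T ⊆ gen T := fun _ ha _ hS => hS.1 ha
lemma bot_gen (T : Set (Submodule k V)) : ⊥ ∈ gen T := fun _ hS => hS.2.1
lemma top_gen (T : Set (Submodule k V)) : ⊤ ∈ gen T := fun _ hS => hS.2.2.1
end

def Cr : Type := Fin 4
instance : DecidableEq Cr := inferInstanceAs (DecidableEq (Fin 4))
instance : Fintype Cr := inferInstanceAs (Fintype (Fin 4))
def o (i : Fin 4) : Cr := i
def le' (x y : Fin 4) : Prop := x = y ∨ (x.1 < 2 ∧ 2 ≤ y.1)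
instance : DecidableRel le' := fun _ _ => by unfold le'; infer_instance
instance : PartialOrder Cr where
  le := le'
  le_refl := by show ∀ x : Fin 4, le' x x; decide
  le_trans := by show ∀ x y z : Fin 4, le' x y → le' y z → le' x z; decide
  le_antisymm := by show ∀ x y : Fin 4, le' x y → le' y x → x = y; decide

def T (c : ℚ) : ℚ × ℚ →ₗ[ℚ] ℚ × ℚ where
  toFun p := (p.1 + c * p.2, p.2)
  map_add' p q := by ext <;> simp; ring
  map_smul' r p := by ext <;> simp; ring

def e (x y : Fin 4) : ℕ := if x = 0 ∧ y = 2 then 1 else 0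

lemma e_add : ∀ x y z : Fin 4, le' x y → le' y z → e x z = e x y + e y z := by decide
lemma e_self : ∀ x : Fin 4, e x x = 0 := by decide
lemma e_le : ∀ x y : Fin 4, e x y ≤ 1 := by decide

def M : Cr ⥤ ModuleCat ℚ where
  obj _ := ModuleCat.of ℚ (ℚ × ℚ)
  map {x y} _ := ModuleCat.ofHom (T (e x y))
  map_id x := by ext <;> simp [T, e_self]
  map_comp {x y z} f g := by
    rw [e_add x y z f.le g.le]
    ext <;> simp [T]

def L (c : ℚ) : Submodule ℚ (ℚ × ℚ) where
  carrier := {p | p.1 = c * p.2}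
  add_mem' := by intro p q hp hq; simp at *; rw [hp, hq]; ring
  zero_mem' := by simp
  smul_mem' := by intro r p hp; simp at *; rw [hp]; ring

lemma memL {c : ℚ} {p : ℚ × ℚ} : p ∈ L c ↔ p.1 = c * p.2 := Iff.rfl

lemma comapL (c d : ℚ) : (L c).comap (T d) = L (c - d) := by
  ext p
  simp only [Submodule.mem_comap, memL]
  show p.1 + d * p.2 = c * p.2 ↔ _
  constructor <;> intro h <;> linarith

lemma surj (d : ℚ) : Function.Surjective (T d) := fun p =>
  ⟨(p.1 - d * p.2, p.2), by ext <;> simp [T]⟩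

lemma kerT (d : ℚ) : LinearMap.ker (T d) = ⊥ := by
  rw [LinearMap.ker_eq_bot']
  intro p hp
  have h1 : p.1 + d * p.2 = 0 := congrArg Prod.fst hp
  have h2 : p.2 = 0 := congrArg Prod.snd hp
  ext
  · rw [h2] at h1; simpa using h1
  · exact h2

lemma mapL (c d : ℚ) : (L c).map (T d) = L (c + d) := by
  rw [show L c = (L (c + d)).comap (T d) by rw [comapL]; simp]
  exact Submodule.map_comap_eq_of_surjective (surj d) _

def S (n : ℕ) : Set (Submodule ℚ (ℚ × ℚ)) := {W | W = ⊥ ∨ W = ⊤ ∨ ∃ c : ℚ, |c| ≤ n - 1 ∧ W = L c}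

lemma flagS (n : ℕ) : IsFlag (S n) := by
  refine ⟨.inl rfl, .inr (.inl rfl), ?_⟩
  rintro a (rfl | rfl | ⟨c, hc, rfl⟩) b hb
  · simp [S]
  · simpa using hb
  · rcases hb with rfl | rfl | ⟨d, hd, rfl⟩
    · simp [S]
    · rw [inf_top_eq]; exact .inr (.inr ⟨c, hc, rfl⟩)
    · by_cases h : c = d
      · rw [h, inf_idem]; exact .inr (.inr ⟨d, hd, rfl⟩)
      · left
        rw [eq_bot_iff]
        rintro p ⟨h1, h2⟩
        have h1 : p.1 = c * p.2 := h1
        have h2 : p.1 = d * p.2 := h2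
        have h3 : p.2 = 0 := by
          by_contra h0
          exact h (mul_right_cancel₀ h0 (h1.symm.trans h2))
        rw [Submodule.mem_bot]
        ext
        · simp [h1, h3]
        · exact h3

def S0 : Set (Submodule ℚ (ℚ × ℚ)) := {W | W = ⊥ ∨ W = ⊤}

lemma flag0 : IsFlag S0 := by
  refine ⟨.inl rfl, .inr rfl, ?_⟩
  rintro a (rfl | rfl) b hb
  · simp [S0]
  · simpa using hb

lemma base_le (x : Cr) : base M x ⊆ S0 := by
  refine gen_le ?_ flag0
  rintro W (⟨y, h, rfl⟩ | ⟨y, h, rfl⟩)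
  · exact .inl (kerT _)
  · exact .inr (LinearMap.range_eq_top.2 (surj _))

lemma it0 (n : ℕ) : ∀ x, iter M (base M) n x = S0 := by
  induction n with
  | zero =>
    intro x
    refine (base_le x).antisymm ?_
    rintro W (rfl | rfl)
    exacts [bot_gen _, top_gen _]
  | succ n ih =>
    intro x
    refine (gen_le ?_ flag0).antisymm ?_
    · rintro W (⟨y, h, U, hU, rfl⟩ | ⟨y, h, U, hU, rfl⟩) <;> rw [ih] at hU <;> rcases hU with rfl | rfl
      · exact .inl (kerT _)
      · exact .inr (Submodule.comap_top _)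
      · exact .inl (Submodule.map_bot _)
      · exact .inr ((Submodule.map_top _).trans (LinearMap.range_eq_top.2 (surj _)))
    · rintro W (rfl | rfl)
      exacts [bot_gen _, top_gen _]

def F0 : Set (Submodule ℚ (ℚ × ℚ)) := {⊥, ⊤, L 0}

lemma F0_eq : F0 = S 1 := by
  ext W
  simp [F0, S]

lemma up (n : ℕ) : ∀ x, iter M (fun y => gen (base M y ∪ F0)) n x ⊆ S (n + 1) := by
  induction n with
  | zero =>
    intro x
    refine gen_le ?_ (flagS _)
    rintro W (h | h)
    · rcases base_le x h with rfl | rfl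
      exacts [.inl rfl, .inr (.inl rfl)]
    · rwa [F0_eq] at h
  | succ n ih =>
    intro x
    refine gen_le ?_ (flagS _)
    rintro W (⟨y, h, U, hU, rfl⟩ | ⟨y, h, U, hU, rfl⟩) <;> rcases ih _ hU with rfl | rfl | ⟨c, hc, rfl⟩
    · exact .inl (kerT _)
    · exact .inr (.inl (Submodule.comap_top _))
    · refine .inr (.inr ⟨_, ?_, comapL _ _⟩)
      have : (e x y : ℚ) ≤ 1 := by exact_mod_cast e_le x y
      have h0 : (0 : ℚ) ≤ e x y := Nat.cast_nonneg _
      rw [abs_le] at hc ⊢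
      push_cast at hc ⊢
      constructor <;> linarith [hc.1, hc.2]
    · exact .inl (Submodule.map_bot _)
    · exact .inr (.inl ((Submodule.map_top _).trans (LinearMap.range_eq_top.2 (surj _))))
    · refine .inr (.inr ⟨_, ?_, mapL _ _⟩)
      have : (e y x : ℚ) ≤ 1 := by exact_mod_cast e_le y x
      have h0 : (0 : ℚ) ≤ e y x := Nat.cast_nonneg _
      rw [abs_le] at hc ⊢
      push_cast at hc ⊢
      constructor <;> linarith [hc.1, hc.2]

lemma low (m : ℕ) : ∃ n, L m ∈ iter M (fun y => gen (base M y ∪ F0)) n (o 0) := by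
  induction m with
  | zero => exact ⟨0, le_gen _ (.inr (show L ((0 : ℕ) : ℚ) ∈ F0 from .inr (.inr (by simp))))⟩
  | succ m ih =>
    obtain ⟨n, h⟩ := ih
    have h02 : o 0 ≤ o 2 := by show le' 0 2; decide
    have h12 : o 1 ≤ o 2 := by show le' 1 2; decide
    have h13 : o 1 ≤ o 3 := by show le' 1 3; decide
    have h03 : o 0 ≤ o 3 := by show le' 0 3; decide
    refine ⟨n + 4, le_gen _ (.inl ⟨o 3, h03, _, le_gen _ (.inr ⟨o 1, h13, _, le_gen _
      (.inl ⟨o 2, h12, _, le_gen _ (.inr ⟨o 0, h02, _, h, rfl⟩), rfl⟩), rfl⟩), ?_⟩)⟩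
    show L _ = ((((L m).map (T (e 0 2))).comap (T (e 1 2))).map (T (e 1 3))).comap (T (e 0 3))
    rw [mapL, comapL, mapL, comapL]
    simp [e]

theorem result : ∃ (C : Type) (_ : PartialOrder C) (_ : Fintype C) (_ : IsConnected C)
    (M : C ⥤ ModuleCat ℚ), (∀ x, Module.Finite ℚ (M.obj x)) ∧ Stable M ∧ ¬ StronglyStable M := by
  have : Nonempty Cr := ⟨o 0⟩
  refine ⟨Cr, inferInstance, inferInstance, ?_, M, fun x => inferInstanceAs (Module.Finite ℚ (ℚ × ℚ)),
    fun x => ⟨0, fun n _ => by rw [it0, it0]⟩, fun h => ?_⟩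
  · have z : ∀ x : Cr, Zigzag (o 0) x := by
      have h02 : o 0 ≤ o 2 := by show le' 0 2; decide
      have h12 : o 1 ≤ o 2 := by show le' 1 2; decide
      have h03 : o 0 ≤ o 3 := by show le' 0 3; decide
      intro x
      fin_cases x
      · exact Zigzag.refl _
      · exact (Zigzag.of_hom h02.hom).trans (Zigzag.of_inv h12.hom)
      · exact Zigzag.of_hom h02.hom
      · exact Zigzag.of_hom h03.hom
    exact zigzag_isConnected fun x y => (z x).symm.trans (z y)
  · obtain ⟨N, hN⟩ := h (fun _ => F0) fun _ => ⟨show F0.Finite from Set.toFinite ({⊥, ⊤, L 0} : Set _), F0_eq ▸ flagS 1⟩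
    obtain ⟨n, hn⟩ := low (N + 1)
    have := up N _ ((hN (o 0)).le (Set.mem_iUnion.2 ⟨n, hn⟩))
    have h1 : (((N + 1 : ℕ) : ℚ), (1 : ℚ)) ∈ L (N + 1 : ℕ) := by simp [memL]
    rcases this with h | h | ⟨c, hc, h⟩
    · rw [h] at h1; simp at h1
    · have : ((1 : ℚ), (0 : ℚ)) ∈ L (N + 1 : ℕ) := by rw [h]; trivial
      simp [memL] at this
    · rw [h, memL] at h1
      have := (abs_le.1 hc).2
      push_cast at *
      linarith

end Pool.Agent.Results.MP_0548d2_gt.Cex
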